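import Mathlib

/-!
# MP_ee8878_co, Q1: an invariant lattice polytope with no invariant triangulation with vertices in
`(1/e(G)) M`

`P` is the free sum of four 3-simplices with a common barycentre (dimension 12, 16 vertices
`e_{s,t}`, `s, t ∈ (ℤ/2)²`), and `G = (ℤ/2)² × (ℤ/2)²` acts by translating `(s, t)`.
-/

set_option autoImplicit false

namespace Pool.Agent.Results.MP_ee8878_co.NoInvariantTriangulation

/-! ## Definitions -/

/-- The real vector with the same (integer) coordinates. -/
def toReal {ι : Type} (x : ι → ℤ) : ι → ℝ := fun i => (x i : ℝ)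

/-- An action of the group `G` on the lattice `M = ℤ^ι` by affine lattice automorphisms
`u ↦ A g u + b g`. -/
structure AffineAction (G : Type) [Group G] (ι : Type) [Fintype ι] [DecidableEq ι] where
  /-- the linear part -/
  A : G →* Matrix ι ι ℤ
  /-- the translation part -/
  b : G → ι → ℤ
  /-- compatibility: `g (h u) = (g h) u` -/
  b_mul : ∀ g h : G, b (g * h) = (A g).mulVec (b h) + b g

variable {G : Type} [Group G] {ι : Type} [Fintype ι] [DecidableEq ι]

/-- The affine map `x ↦ A g x + b g` of `M_ℝ = ℝ^ι`. -/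
noncomputable def AffineAction.act (α : AffineAction G ι) (g : G) (x : ι → ℝ) : ι → ℝ :=
  ((α.A g).map (Int.cast : ℤ → ℝ)).mulVec x + toReal (α.b g)

/-- `P` is a full-dimensional lattice polytope in `ℝ^ι`. -/
def IsLatticePolytope (P : Set (ι → ℝ)) : Prop :=
  (∃ V : Finset (ι → ℤ), P = convexHull ℝ (toReal '' (V : Set (ι → ℤ)))) ∧ (interior P).Nonempty

/-- Every `g` maps `P` onto itself. -/
def AffineAction.Invariant (α : AffineAction G ι) (P : Set (ι → ℝ)) : Prop :=
  ∀ g : G, α.act g '' P = P

/-- `K` is a triangulation of `P`: a finite simplicial complex (given by the vertex sets of its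
faces) with underlying space `P`. -/
def IsTriangulation (K : Geometry.SimplicialComplex ℝ (ι → ℝ)) (P : Set (ι → ℝ)) : Prop :=
  K.faces.Finite ∧ K.space = P

/-- All vertices of `K` lie in the lattice `(1/N) M`. -/
def VerticesIn (K : Geometry.SimplicialComplex ℝ (ι → ℝ)) (N : ℕ) : Prop :=
  ∀ s ∈ K.faces, ∀ x ∈ s, ∃ z : ι → ℤ, (N : ℝ) • x = toReal z

open Classical in
/-- `K` is `G`-invariant: every `g` maps each simplex of `K` onto a simplex of `K`. -/
def AffineAction.InvariantComplex (α : AffineAction G ι)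
    (K : Geometry.SimplicialComplex ℝ (ι → ℝ)) : Prop :=
  ∀ g : G, ∀ s ∈ K.faces, s.image (α.act g) ∈ K.faces

/-! ## A general lemma on simplicial complexes -/

section Complex

variable {E : Type} [AddCommGroup E] [Module ℝ E]

theorem indep_zero {s : Finset E} (hs : AffineIndependent ℝ ((↑) : s → E)) (v : E → ℝ)
    (h0 : ∑ x ∈ s, v x = 0) (h1 : ∑ x ∈ s, v x • x = 0) : ∀ x ∈ s, v x = 0 := by
  rw [affineIndependent_iff] at hs
  intro x hx
  have := hs Finset.univ (fun y => v y) (by rw [Finset.sum_coe_sort s v]; exact h0)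
    (by rw [Finset.sum_coe_sort s (fun y => v y • y)]; exact h1) ⟨x, hx⟩ (Finset.mem_univ _)
  exact this

theorem exists_open_face (K : Geometry.SimplicialComplex ℝ E) (c : E) (hc : c ∈ K.space) :
    ∃ s ∈ K.faces, ∃ w : E → ℝ, (∀ x ∈ s, 0 < w x) ∧ ∑ x ∈ s, w x = 1 ∧
      ∑ x ∈ s, w x • x = c := by
  classical
  rw [Geometry.SimplicialComplex.mem_space_iff] at hc
  obtain ⟨t, ht, hct⟩ := hc
  rw [Finset.mem_convexHull'] at hct
  obtain ⟨w, hw0, hw1, hwc⟩ := hct
  have hsum : ∑ x ∈ t.filter (fun x => 0 < w x), w x = 1 := by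
    rw [← hw1]
    apply Finset.sum_subset (Finset.filter_subset _ _)
    intro x hx hx'
    rw [Finset.mem_filter, not_and, not_lt] at hx'
    exact le_antisymm (hx' hx) (hw0 x hx)
  refine ⟨t.filter (fun x => 0 < w x), ?_, w, ?_, hsum, ?_⟩
  · apply K.down_closed ht (Finset.filter_subset _ _)
    rw [Finset.nonempty_iff_ne_empty]
    intro h
    rw [h, Finset.sum_empty] at hsum
    exact zero_ne_one hsum
  · intro x hx
    exact (Finset.mem_filter.mp hx).2
  · rw [← hwc]
    apply Finset.sum_subset (Finset.filter_subset _ _)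
    intro x hx hx'
    rw [Finset.mem_filter, not_and, not_lt] at hx'
    rw [le_antisymm (hx' hx) (hw0 x hx), zero_smul]

theorem subset_of_open_face (K : Geometry.SimplicialComplex ℝ E) (c : E) (s t : Finset E)
    (hs : s ∈ K.faces) (ht : t ∈ K.faces) (w : E → ℝ) (hw : ∀ x ∈ s, 0 < w x)
    (hw1 : ∑ x ∈ s, w x = 1) (hwc : ∑ x ∈ s, w x • x = c) (hct : c ∈ convexHull ℝ (t : Set E)) :
    s ⊆ t := by
  classical
  have hcs : c ∈ convexHull ℝ (s : Set E) := by
    rw [Finset.mem_convexHull']
    exact ⟨w, fun x hx => (hw x hx).le, hw1, hwc⟩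
  have hc := K.inter_subset_convexHull hs ht ⟨hcs, hct⟩
  rw [← Finset.coe_inter, Finset.mem_convexHull'] at hc
  obtain ⟨u, hu0, hu1, huc⟩ := hc
  have hu1' : ∑ x ∈ s, (if x ∈ t then u x else 0) = 1 := by
    rw [← hu1, Finset.sum_ite_mem]
  have huc' : ∑ x ∈ s, (if x ∈ t then u x else 0) • x = c := by
    rw [← huc, ← Finset.sum_filter_add_sum_filter_not s (fun x => x ∈ t)]
    have h1 : ∑ x ∈ s.filter (fun x => ¬ x ∈ t), (if x ∈ t then u x else 0) • x = 0 := by
      apply Finset.sum_eq_zero
      intro x hx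
      rw [if_neg (Finset.mem_filter.mp hx).2, zero_smul]
    rw [h1, add_zero, Finset.filter_mem_eq_inter]
    apply Finset.sum_congr rfl
    intro x hx
    rw [if_pos (Finset.mem_inter.mp hx).2]
  have h0 : ∑ x ∈ s, (w x - (if x ∈ t then u x else 0)) = 0 := by
    rw [Finset.sum_sub_distrib, hw1, hu1', sub_self]
  have h1 : ∑ x ∈ s, (w x - (if x ∈ t then u x else 0)) • x = 0 := by
    simp only [sub_smul]
    rw [Finset.sum_sub_distrib, hwc, huc', sub_self]
  have hz := indep_zero (K.indep hs) _ h0 h1
  intro x hx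
  by_contra hxt
  have := hz x hx
  rw [if_neg hxt, sub_zero] at this
  exact absurd this (hw x hx).ne'

end Complex

/-! ## The example -/

/-- the index set of the 16 vertices -/
abbrev U : Type := (ZMod 2 × ZMod 2) × (ZMod 2 × ZMod 2)

/-- the index set of the 12 coordinates -/
abbrev I : Type := {u : U // u.2 ≠ 0}

/-- the group `(ℤ/2)² × (ℤ/2)²`, written multiplicatively -/
abbrev Gr : Type := Multiplicative U

/-- the vertices -/
def p (u : U) (i : I) : ℤ :=
  if u.2 = 0 then (if u.1 = 0 then 0 else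
    (if i.1.1 = 0 then 1 else 0) - (if i.1.1 = u.1 then 1 else 0))
  else (if u = i.1 then 1 else 0)

/-- the linear parts -/
def AA (g : U) : Matrix I I ℤ := fun i j => p (g + j.1) i - p g i

theorem key : ∀ g u : U, ∀ i : I, ∑ j : I, (p (g + j.1) i - p g i) * p u j + p g i = p (g + u) i := by
  decide +kernel

theorem AA_mulVec (g u : U) : (AA g).mulVec (p u) = p (g + u) - p g := by
  funext i
  have := key g u i
  simp only [Matrix.mulVec, dotProduct, AA, Pi.sub_apply]
  linarith

theorem AA_mul (g h : U) : AA (g + h) = AA g * AA h := by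
  ext i j
  have e1 : (AA g * AA h) i j = (AA g).mulVec (p (h + j.1)) i - (AA g).mulVec (p h) i := by
    rw [Matrix.mul_apply]
    simp only [Matrix.mulVec, dotProduct]
    rw [← Finset.sum_sub_distrib]
    apply Finset.sum_congr rfl
    intro k _
    simp only [AA]
    ring
  rw [e1, AA_mulVec, AA_mulVec]
  simp only [AA, Pi.sub_apply, add_assoc]
  ring

theorem p_zero (i : I) : p 0 i = 0 := by
  simp [p]

theorem p_coe (j i : I) : p j.1 i = if i = j then 1 else 0 := by
  unfold p
  rw [if_neg j.2]
  by_cases h : i = j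
  · subst h; simp
  · rw [if_neg h, if_neg]
    intro h'
    exact h (Subtype.ext h'.symm)

theorem AA_zero : AA 0 = 1 := by
  ext i j
  simp only [AA, zero_add, p_zero, sub_zero, p_coe, Matrix.one_apply]

/-- the action -/
def act0 : AffineAction Gr I where
  A :=
    { toFun := fun g => AA (Multiplicative.toAdd g)
      map_one' := AA_zero
      map_mul' := fun g h => AA_mul _ _ }
  b := fun g => p (Multiplicative.toAdd g)
  b_mul := by
    intro g h
    change p (Multiplicative.toAdd g + Multiplicative.toAdd h) =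
      (AA (Multiplicative.toAdd g)).mulVec (p (Multiplicative.toAdd h)) +
        p (Multiplicative.toAdd g)
    rw [AA_mulVec]
    abel

/-- the real vertices -/
noncomputable def P0 : Set (I → ℝ) :=
  convexHull ℝ (toReal '' ((Finset.univ.image p : Finset (I → ℤ)) : Set (I → ℤ)))

theorem act_eq (g : Gr) (x : I → ℝ) (i : I) : act0.act g x i =
    ∑ j, (AA (Multiplicative.toAdd g) i j : ℝ) * x j + (p (Multiplicative.toAdd g) i : ℝ) := rfl

theorem act_p (g : Gr) (u : U) : act0.act g (toReal (p u)) =
    toReal (p (Multiplicative.toAdd g + u)) := by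
  funext i
  rw [act_eq]
  have := congrFun (AA_mulVec (Multiplicative.toAdd g) u) i
  simp only [Matrix.mulVec, dotProduct, Pi.sub_apply] at this
  have h2 : ((∑ j, AA (Multiplicative.toAdd g) i j * p u j : ℤ) : ℝ) =
      ((p (Multiplicative.toAdd g + u) i - p (Multiplicative.toAdd g) i : ℤ) : ℝ) := by
    rw [this]
  push_cast at h2
  simp only [toReal]
  linarith

/-- the affine map `act g` -/
noncomputable def actAff (g : Gr) : (I → ℝ) →ᵃ[ℝ] (I → ℝ) :=
  (Matrix.mulVecLin ((act0.A g).map (Int.cast : ℤ → ℝ))).toAffineMap +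
    AffineMap.const ℝ (I → ℝ) (toReal (act0.b g))

theorem actAff_apply (g : Gr) (x : I → ℝ) : actAff g x = act0.act g x := rfl

theorem invariant : act0.Invariant P0 := by
  intro g
  have h1 : act0.act g '' P0 = convexHull ℝ (act0.act g '' (toReal ''
      ((Finset.univ.image p : Finset (I → ℤ)) : Set (I → ℤ)))) := by
    have := (actAff g).image_convexHull (toReal '' ((Finset.univ.image p : Finset (I → ℤ)) :
      Set (I → ℤ)))
    exact this
  rw [h1, P0]
  congr 1
  ext x
  simp only [Finset.coe_image, Finset.coe_univ, Set.image_univ, Set.mem_image, Set.mem_range,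
    exists_exists_eq_and]
  constructor
  · rintro ⟨u, rfl⟩
    exact ⟨Multiplicative.toAdd g + u, (act_p g u).symm⟩
  · rintro ⟨u, rfl⟩
    refine ⟨-Multiplicative.toAdd g + u, ?_⟩
    rw [act_p]
    congr 2
    abel

theorem p_mem (u : U) : toReal (p u) ∈ P0 := by
  apply subset_convexHull
  refine ⟨p u, ?_, rfl⟩
  simp

theorem latticePolytope : IsLatticePolytope P0 := by
  refine ⟨⟨Finset.univ.image p, rfl⟩, ?_⟩
  have hconv : convexHull ℝ P0 = P0 := (convex_convexHull ℝ _).convexHull_eq
  rw [← hconv, interior_convexHull_nonempty_iff_affineSpan_eq_top]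
  -- the affine span contains `0` and all unit vectors
  have h0 : (0 : I → ℝ) ∈ affineSpan ℝ P0 := by
    have : toReal (p 0) = 0 := by
      funext i; simp [toReal, p_zero]
    rw [← this]
    exact subset_affineSpan ℝ _ (p_mem 0)
  have h1 : ∀ j : I, (Pi.single j 1 : I → ℝ) ∈ affineSpan ℝ P0 := by
    intro j
    have : toReal (p j.1) = Pi.single j 1 := by
      funext i
      simp only [toReal, p_coe, Pi.single_apply]
      push_cast
      rfl
    rw [← this]
    exact subset_affineSpan ℝ _ (p_mem j.1)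
  have hdir : (affineSpan ℝ P0).direction = ⊤ := by
    rw [eq_top_iff, ← (Pi.basisFun ℝ I).span_eq, Submodule.span_le]
    rintro _ ⟨j, rfl⟩
    rw [Pi.basisFun_apply]
    have := (affineSpan ℝ P0).vsub_mem_direction (h1 j) h0
    simpa using this
  exact (AffineSubspace.direction_eq_top_iff_of_nonempty ⟨0, h0⟩).mp hdir

/-! ## The fixed point -/

/-- the barycentre -/
noncomputable def cc : I → ℝ := ∑ u : U, (1 / 16 : ℝ) • toReal (p u)

theorem cc_mem : cc ∈ P0 := by
  apply (convex_convexHull ℝ _).sum_mem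
  · intro u _; norm_num
  · rw [Finset.sum_const, Finset.card_univ]
    have : Fintype.card U = 16 := by decide
    rw [this]; norm_num
  · intro u _; exact p_mem u

theorem act_cc (g : Gr) : act0.act g cc = cc := by
  have h1 : actAff g cc = ∑ u : U, (1 / 16 : ℝ) • actAff g (toReal (p u)) := by
    unfold cc
    have hsum : ∑ u : U, (1 / 16 : ℝ) = 1 := by
      rw [Finset.sum_const, Finset.card_univ]
      have : Fintype.card U = 16 := by decide
      rw [this]; norm_num
    have h2 := Finset.univ.map_affineCombination (fun u : U => toReal (p u))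
      (fun _ => (1 / 16 : ℝ)) hsum (actAff g)
    rw [Finset.affineCombination_eq_linear_combination _ _ _ hsum,
      Finset.affineCombination_eq_linear_combination _ _ _ hsum] at h2
    exact h2
  rw [← actAff_apply, h1]
  simp only [actAff_apply, act_p]
  unfold cc
  exact Equiv.sum_comp (Equiv.addLeft (Multiplicative.toAdd g))
    (fun u => (1 / 16 : ℝ) • toReal (p u))

/-! ## Characters -/

/-- the three nontrivial characters of the first factor -/
def chi (k : Fin 3) (u : U) : ℤ :=
  if k = 0 then (if u.1.1 = 0 then 1 else -1) else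
    if k = 1 then (if u.1.2 = 0 then 1 else -1) else
      (if u.1.1 = 0 then 1 else -1) * (if u.1.2 = 0 then 1 else -1)

theorem chi_A : ∀ (k : Fin 3) (i j : I), ∑ g : U, chi k g * AA g i j = 0 := by
  decide +kernel

theorem chi_b : ∀ (k : Fin 3) (i : I), ∑ g : U, chi k g * p g i = 0 := by
  decide +kernel

theorem chi_sum : ∀ (k : Fin 3), ∑ g : U, chi k g = 0 := by
  decide +kernel

theorem chi_act (k : Fin 3) (x : I → ℝ) :
    ∑ g : U, (chi k g : ℝ) • act0.act (Multiplicative.ofAdd g) x = 0 := by
  funext i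
  rw [Finset.sum_apply]
  simp only [Pi.smul_apply, smul_eq_mul, act_eq, toAdd_ofAdd, Pi.zero_apply, mul_add,
    Finset.sum_add_distrib, Finset.mul_sum]
  rw [Finset.sum_comm]
  have h1 : ∀ j : I, ∑ g : U, (chi k g : ℝ) * ((AA g i j : ℝ) * x j) = 0 := by
    intro j
    have h := chi_A k i j
    have h2 : ((∑ g : U, chi k g * AA g i j : ℤ) : ℝ) = 0 := by rw [h]; simp
    push_cast at h2
    have h3 : ∑ g : U, (chi k g : ℝ) * ((AA g i j : ℝ) * x j) =
        (∑ g : U, (chi k g : ℝ) * (AA g i j : ℝ)) * x j := by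
      rw [Finset.sum_mul]
      apply Finset.sum_congr rfl
      intro g _; ring
    rw [h3, h2, zero_mul]
  have h4 : ∑ g : U, (chi k g : ℝ) * (p g i : ℝ) = 0 := by
    have h := chi_b k i
    have h2 : ((∑ g : U, chi k g * p g i : ℤ) : ℝ) = 0 := by rw [h]; simp
    push_cast at h2
    exact h2
  rw [Finset.sum_congr rfl (fun j _ => h1 j), h4]
  simp

/-! ## Row sums modulo 4 -/

/-- linear part of the row sum -/
def r (s : ZMod 2 × ZMod 2) (i : I) : ℤ :=
  if s = 0 then (if i.1.1 = 0 then 0 else -1) else (if i.1.1 = s then 1 else 0)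

theorem r_A : ∀ (h : U) (i : I), (∑ j, r h.1 j * AA h j i - r 0 i) % 4 = 0 := by
  decide +kernel

theorem r_b : ∀ (h : U), (∑ j, r h.1 j * (2 * p h j) + (if h.1 = 0 then 2 else 0) - 2) % 4 = 0 := by
  decide +kernel

theorem r_sum : ∀ i : I, r 0 i + r (0, 1) i + r (1, 0) i + r (1, 1) i = 0 := by
  decide +kernel

/-- row sum of `y`, an integer vector of height `2` -/
def rho (s : ZMod 2 × ZMod 2) (y : I → ℤ) : ℤ := ∑ i, r s i * y i + (if s = 0 then 2 else 0)

theorem rho_act (h : U) (y : I → ℤ) :
    (4 : ℤ) ∣ rho h.1 (fun i => ∑ j, AA h i j * y j + 2 * p h i) - rho 0 y := by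
  have h1 : rho h.1 (fun i => ∑ j, AA h i j * y j + 2 * p h i) - rho 0 y =
      ∑ i, (∑ j, r h.1 j * AA h j i - r 0 i) * y i +
        (∑ j, r h.1 j * (2 * p h j) + (if h.1 = 0 then 2 else 0) - 2) := by
    unfold rho
    simp only [mul_add, Finset.sum_add_distrib, Finset.mul_sum, sub_mul, Finset.sum_sub_distrib,
      Finset.sum_mul, if_true]
    rw [Finset.sum_comm]
    have : ∀ i j : I, r h.1 j * (AA h j i * y i) = r h.1 j * AA h j i * y i := fun i j => by ring
    simp only [this]
    ring
  rw [h1]
  apply dvd_add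
  · apply Finset.dvd_sum
    intro i _
    exact Dvd.dvd.mul_right (Int.dvd_of_emod_eq_zero (r_A h i)) _
  · exact Int.dvd_of_emod_eq_zero (r_b h)

theorem rho_sum (y : I → ℤ) : rho 0 y + rho (0, 1) y + rho (1, 0) y + rho (1, 1) y = 2 := by
  unfold rho
  have h1 : (∑ i, r 0 i * y i) + (∑ i, r (0, 1) i * y i) + (∑ i, r (1, 0) i * y i) +
      (∑ i, r (1, 1) i * y i) = 0 := by
    rw [← Finset.sum_add_distrib, ← Finset.sum_add_distrib, ← Finset.sum_add_distrib]
    apply Finset.sum_eq_zero
    intro i _
    have := r_sum i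
    linear_combination (y i) * this
  have e1 : ¬ ((0, 1) : ZMod 2 × ZMod 2) = 0 := by decide
  have e2 : ¬ ((1, 0) : ZMod 2 × ZMod 2) = 0 := by decide
  have e3 : ¬ ((1, 1) : ZMod 2 × ZMod 2) = 0 := by decide
  simp only [e1, e2, e3, if_false, if_true]
  linarith

/-- No point of `(1/2) ℤ^12` is fixed by elements `(s, t_s)` for all `s`. -/
theorem no_fixed (y : I → ℤ)
    (h : ∀ s : ZMod 2 × ZMod 2, ∃ t : ZMod 2 × ZMod 2, ∀ i,
      ∑ j, AA (s, t) i j * y j + 2 * p (s, t) i = y i) : False := by
  have key : ∀ s, (4 : ℤ) ∣ rho s y - rho 0 y := by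
    intro s
    obtain ⟨t, ht⟩ := h s
    have h1 := rho_act (s, t) y
    have h2 : (fun i => ∑ j, AA (s, t) i j * y j + 2 * p (s, t) i) = y := funext ht
    rw [h2] at h1
    exact h1
  have k1 := key (0, 1)
  have k2 := key (1, 0)
  have k3 := key (1, 1)
  have k4 := rho_sum y
  omega

theorem univ_eq : (Finset.univ : Finset (ZMod 2 × ZMod 2)) = {(0, 0), (0, 1), (1, 0), (1, 1)} := by
  decide

theorem exponent_eq : Monoid.exponent Gr = 2 := by
  apply Nat.dvd_antisymm
  · apply Monoid.exponent_dvd_of_forall_pow_eq_one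
    intro g
    have : ∀ u : U, 2 • u = 0 := by decide
    exact this (Multiplicative.toAdd g)
  · have h1 : orderOf (Multiplicative.ofAdd (((1, 0), (0, 0)) : U)) = 2 := by
      apply orderOf_eq_prime
      · change 2 • (((1, 0), (0, 0)) : U) = 0
        decide
      · intro h
        have : (((1, 0), (0, 0)) : U) = 0 := h
        revert this
        decide
    have h2 := Monoid.order_dvd_exponent (Multiplicative.ofAdd (((1, 0), (0, 0)) : U))
    rw [h1] at h2
    exact h2

/-- **Main theorem.** The group `Gr = (ℤ/2)⁴` of exponent `2` acts on `ℤ^I`, `|I| = 12`, by affine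
lattice automorphisms, and there is an invariant full-dimensional lattice polytope `P` such that no
triangulation of `P` (regular or not) with vertices in `(1/e(G)) ℤ^I` is `G`-invariant. -/
theorem result : Fintype.card I = 12 ∧ Monoid.exponent Gr = 2 ∧
    ∃ (α : AffineAction Gr I) (P : Set (I → ℝ)), IsLatticePolytope P ∧ α.Invariant P ∧
      ∀ K : Geometry.SimplicialComplex ℝ (I → ℝ), IsTriangulation K P →
        VerticesIn K (Monoid.exponent Gr) → ¬ α.InvariantComplex K := by
  classical
  refine ⟨by decide, exponent_eq, act0, P0, latticePolytope, invariant, ?_⟩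
  rintro K ⟨_, hspace⟩ hV hInv
  rw [exponent_eq] at hV
  obtain ⟨s, hs, w, hw, hw1, hwc⟩ := exists_open_face K cc (by rw [hspace]; exact cc_mem)
  -- `s` is `G`-invariant
  have hmem : ∀ g : Gr, ∀ x ∈ s, act0.act g x ∈ s := by
    intro g
    have himg : s.image (act0.act g) ∈ K.faces := by
      have := hInv g s hs
      convert this
    have hc : cc ∈ convexHull ℝ ((s.image (act0.act g) : Finset (I → ℝ)) : Set (I → ℝ)) := by
      have h1 : act0.act g cc = ∑ x ∈ s, w x • act0.act g x := by
        have h2 := s.map_affineCombination (fun x : I → ℝ => x) w hw1 (actAff g)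
        rw [Finset.affineCombination_eq_linear_combination _ _ _ hw1,
          Finset.affineCombination_eq_linear_combination _ _ _ hw1, hwc] at h2
        exact h2
      rw [act_cc] at h1
      rw [h1]
      apply (convex_convexHull ℝ _).sum_mem (fun x hx => (hw x hx).le) hw1
      intro x hx
      apply subset_convexHull
      rw [Finset.mem_coe]
      exact Finset.mem_image_of_mem _ hx
    have hsub := subset_of_open_face K cc s _ hs himg w hw hw1 hwc hc
    have heq : s = s.image (act0.act g) :=
      Finset.eq_of_subset_of_card_le hsub Finset.card_image_le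
    intro x hx
    rw [heq]
    exact Finset.mem_image_of_mem _ hx
  obtain ⟨x, hx⟩ := Geometry.SimplicialComplex.nonempty_of_mem_faces hs
  obtain ⟨y, hy⟩ := hV s hs x hx
  -- the stabilizer
  set H : Finset U := Finset.univ.filter (fun g => act0.act (Multiplicative.ofAdd g) x = x) with hH
  have hchi : ∀ k : Fin 3, ∑ g ∈ H, chi k g = 0 := by
    intro k
    set v : (I → ℝ) → ℝ := fun z => ∑ g ∈ Finset.univ.filter
      (fun g : U => act0.act (Multiplicative.ofAdd g) x = z), (chi k g : ℝ) with hv
    have hmaps : ∀ g ∈ (Finset.univ : Finset U), act0.act (Multiplicative.ofAdd g) x ∈ s :=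
      fun g _ => hmem _ x hx
    have h0 : ∑ z ∈ s, v z = 0 := by
      rw [hv]
      rw [Finset.sum_fiberwise_of_maps_to hmaps]
      have h := chi_sum k
      have h2 : ((∑ g : U, chi k g : ℤ) : ℝ) = 0 := by rw [h]; simp
      push_cast at h2
      exact h2
    have h1 : ∑ z ∈ s, v z • z = 0 := by
      have h2 : ∀ z ∈ s, v z • z = ∑ g ∈ Finset.univ.filter
          (fun g : U => act0.act (Multiplicative.ofAdd g) x = z),
          (chi k g : ℝ) • act0.act (Multiplicative.ofAdd g) x := by
        intro z _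
        rw [hv, Finset.sum_smul]
        apply Finset.sum_congr rfl
        intro g hg
        rw [(Finset.mem_filter.mp hg).2]
      rw [Finset.sum_congr rfl h2, Finset.sum_fiberwise_of_maps_to hmaps]
      exact chi_act k x
    have h3 := indep_zero (K.indep hs) v h0 h1 x hx
    have h4 : ((∑ g ∈ H, chi k g : ℤ) : ℝ) = 0 := by
      push_cast
      exact h3
    exact_mod_cast h4
  -- counting
  set N : ZMod 2 × ZMod 2 → ℤ := fun a => ((H.filter (fun g => g.1 = a)).card : ℤ) with hN
  have hsum : ∀ k : Fin 3, ∑ a : ZMod 2 × ZMod 2, N a * chi k (a, 0) = 0 := by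
    intro k
    rw [← hchi k, ← Finset.sum_fiberwise_of_maps_to (s := H) (t := Finset.univ)
      (g := fun g : U => g.1) (fun _ _ => Finset.mem_univ _)]
    apply Finset.sum_congr rfl
    intro a _
    rw [Finset.sum_congr rfl (g := fun _ => chi k (a, 0))]
    · rw [Finset.sum_const, nsmul_eq_mul]
    · intro g hg
      rw [← (Finset.mem_filter.mp hg).2]
      simp [chi]
  have k0 := hsum 0
  have k1 := hsum 1
  have k2 := hsum 2
  rw [univ_eq, Finset.sum_insert (by decide), Finset.sum_insert (by decide),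
    Finset.sum_insert (by decide), Finset.sum_singleton] at k0 k1 k2
  have c00 : chi 0 ((0, 0), 0) = 1 := by decide
  have c01 : chi 0 ((0, 1), 0) = 1 := by decide
  have c02 : chi 0 ((1, 0), 0) = -1 := by decide
  have c03 : chi 0 ((1, 1), 0) = -1 := by decide
  have c10 : chi 1 ((0, 0), 0) = 1 := by decide
  have c11 : chi 1 ((0, 1), 0) = -1 := by decide
  have c12 : chi 1 ((1, 0), 0) = 1 := by decide
  have c13 : chi 1 ((1, 1), 0) = -1 := by decide
  have c20 : chi 2 ((0, 0), 0) = 1 := by decide
  have c21 : chi 2 ((0, 1), 0) = -1 := by decide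
  have c22 : chi 2 ((1, 0), 0) = -1 := by decide
  have c23 : chi 2 ((1, 1), 0) = 1 := by decide
  rw [c00, c01, c02, c03] at k0
  rw [c10, c11, c12, c13] at k1
  rw [c20, c21, c22, c23] at k2
  have hpos : 1 ≤ N (0, 0) := by
    have : (0 : U) ∈ H.filter (fun g => g.1 = (0, 0)) := by
      rw [Finset.mem_filter, hH, Finset.mem_filter]
      refine ⟨⟨Finset.mem_univ _, ?_⟩, rfl⟩
      funext i
      rw [act_eq]
      simp [AA_zero, p_zero, Matrix.one_apply]
    have h1 : 0 < (H.filter (fun g => g.1 = (0, 0))).card := Finset.card_pos.mpr ⟨_, this⟩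
    rw [hN]
    simp only
    omega
  have hall : ∀ a : ZMod 2 × ZMod 2, 1 ≤ N a := by
    intro a
    have ha : a ∈ (Finset.univ : Finset (ZMod 2 × ZMod 2)) := Finset.mem_univ a
    rw [univ_eq] at ha
    simp only [Finset.mem_insert, Finset.mem_singleton] at ha
    rcases ha with rfl | rfl | rfl | rfl <;> linarith
  apply no_fixed y
  intro a
  have h1 : 0 < (H.filter (fun g => g.1 = a)).card := by
    have := hall a
    rw [hN] at this
    simp only at this
    omega
  obtain ⟨g, hg⟩ := Finset.card_pos.mp h1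
  rw [Finset.mem_filter, hH, Finset.mem_filter] at hg
  obtain ⟨⟨_, hg1⟩, hg2⟩ := hg
  refine ⟨g.2, fun i => ?_⟩
  have hga : (a, g.2) = g := by rw [← hg2]
  rw [hga]
  have h2 := congrFun hg1 i
  rw [act_eq] at h2
  have h3 : ∀ j, (2 : ℝ) * x j = (y j : ℝ) := by
    intro j
    have := congrFun hy j
    simpa [toReal] using this
  have h4 : ((∑ j, AA g i j * y j + 2 * p g i : ℤ) : ℝ) = (y i : ℝ) := by
    push_cast
    rw [← h3 i, ← h2]
    simp only [← h3, toAdd_ofAdd]
    rw [mul_add, Finset.mul_sum]
    congr 1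
    apply Finset.sum_congr rfl
    intro j _
    ring
  exact_mod_cast h4

end Pool.Agent.Results.MP_ee8878_co.NoInvariantTriangulation
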